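import Pool.Agent.H794.EMT.Main

/-!
# Grids with exactly one even side are edge-magic total

If exactly one of `m`, `n` is even then the grid `P_m □ P_n` is edge-magic total.
-/

set_option autoImplicit false

open SimpleGraph

theorem Pool.Agent.Results.MP_5186fc_co.GridsOneEvenSide.result :
    ∀ m n : ℕ, 1 ≤ m → 1 ≤ n → Odd (m + n) →
      Pool.Agent.H794.EMT.IsEdgeMagicTotal (pathGraph m □ pathGraph n) :=
  Pool.Agent.H794.EMT.main
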