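import Pool.Agent.H794.EMT.Short

/-!
# Grids with a side 6, 7, 8 or 10 are edge-magic total
-/

set_option autoImplicit false

open SimpleGraph

theorem Pool.Agent.Results.MP_5186fc_co.GridsShortSide.result :
    ∀ m n : ℕ, (m = 6 ∨ m = 7 ∨ m = 8 ∨ m = 10) → 1 ≤ n →
      Pool.Agent.H794.EMT.IsEdgeMagicTotal (pathGraph m □ pathGraph n) := by
  intro m n hm hn
  rcases Nat.even_or_odd' n with ⟨q, hq | hq⟩
  · rcases hm with rfl | rfl | rfl | rfl
    · subst hq; exact Pool.Agent.H794.EMT.emt6e q (by omega)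
    · exact Pool.Agent.H794.EMT.main 7 n (by omega) hn ⟨q + 3, by omega⟩
    · subst hq; exact Pool.Agent.H794.EMT.emt8e q (by omega)
    · subst hq; exact Pool.Agent.H794.EMT.emt10e q (by omega)
  · rcases hm with rfl | rfl | rfl | rfl
    · exact Pool.Agent.H794.EMT.main 6 n (by omega) hn ⟨q + 3, by omega⟩
    · subst hq; exact Pool.Agent.H794.EMT.emt7o q
    · exact Pool.Agent.H794.EMT.main 8 n (by omega) hn ⟨q + 4, by omega⟩
    · exact Pool.Agent.H794.EMT.main 10 n (by omega) hn ⟨q + 5, by omega⟩
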