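import Pool.Agent.H794.EMT.Three

/-!
# Grids with a side congruent to 3 modulo 6 are edge-magic total

If one of `m`, `n` is congruent to 3 modulo 6 then the grid `P_m □ P_n` is edge-magic total.
-/

set_option autoImplicit false

open SimpleGraph

theorem Pool.Agent.Results.MP_5186fc_co.GridsSideThreeModSix.result :
    ∀ m n : ℕ, 1 ≤ m → 1 ≤ n → (m % 6 = 3 ∨ n % 6 = 3) →
      Pool.Agent.H794.EMT.IsEdgeMagicTotal (pathGraph m □ pathGraph n) := by
  intro m n hm hn h
  rcases h with h | h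
  · obtain ⟨s, rfl⟩ : ∃ s, m = 6 * s + 3 := ⟨m / 6, by omega⟩
    exact Pool.Agent.H794.EMT.three_mod_six s n hn
  · obtain ⟨s, rfl⟩ : ∃ s, n = 6 * s + 3 := ⟨n / 6, by omega⟩
    exact Pool.Agent.H794.EMT.of_iso (boxProdComm _ _)
      (Pool.Agent.H794.EMT.three_mod_six s m hm)
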